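import Pool.Agent.V11197.SkewLegendre

set_option autoImplicit false

/-!
For every prime `p ≡ 1 (mod 4)`, the square root `s` of the skew-symmetric determinant
`D_p = det[(j² - k²) ((j² - k²)/p)]` has Legendre symbol `(s/p) = (-1)^{N(p)} (p/3)`.
-/

open Finset

namespace Pool.Agent.Results.MP_6c59e0_nt.LegendreSqrt

/-- The determinant of the matrix `[(j² - k²) ((j² - k²)/p)]`, `1 ≤ j, k ≤ (p-1)/2`
(rows and columns are indexed here by `j - 1` and `k - 1`). -/
def D (p : ℕ) [Fact p.Prime] : ℤ :=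
  (Matrix.of fun j k : Fin ((p - 1) / 2) =>
    (((j : ℤ) + 1) ^ 2 - ((k : ℤ) + 1) ^ 2) *
      legendreSym p (((j : ℤ) + 1) ^ 2 - ((k : ℤ) + 1) ^ 2)).det

/-- The number of integers `0 < k < p/4` with `(k/p) = -1`. -/
def N (p : ℕ) [Fact p.Prime] : ℕ :=
  ((range p).filter fun k : ℕ => 0 < k ∧ 4 * k < p ∧ legendreSym p k = -1).card

open Pool.Agent.V11197.SkewLegendre in
theorem D_eq (p : ℕ) [Fact p.Prime] : D p = skewDet p 1 ((p - 1) / 2) := by
  rw [D, skewDet]
  simp only [pow_one]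

/-- **Main result.** For every prime `p ≡ 1 (mod 4)` the determinant `D_p` is the square of an
integer, and every integer `s` with `s² = D_p` satisfies `(s/p) = (-1)^{N(p)} (p/3)`. -/
theorem result (p : ℕ) [Fact p.Prime] (hp : p % 4 = 1) :
    (∃ s : ℤ, s ^ 2 = D p) ∧
      ∀ s : ℤ, s ^ 2 = D p → legendreSym p s = (-1) ^ N p * legendreSym 3 p := by
  open Pool.Agent.V11197.SkewLegendre in
  refine ⟨?_, fun s hs => ?_⟩
  · rw [D_eq]
    exact exists_sqrt p 0 _ hp
  · have hp1 : 1 < p := (Fact.out : p.Prime).one_lt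
    obtain ⟨k, hk⟩ : ∃ k, p = 4 * (k + 0 + 1) + 1 := ⟨(p - 1) / 4 - 1, by omega⟩
    have h1 : (p - 1) / 2 = 2 * (k + 0 + 1) := by omega
    rw [D_eq, h1] at hs
    have h2 := main p 0 k hk s hs
    have hp5 : 5 ≤ p := by omega
    -- the Legendre symbols of `n + 2` and `n + 1`
    have hc2 := chi_mul_self p 2 (cast_ne_zero_of_lt p 2 (by norm_num) (by omega))
    have hb : chi p (bb (2 * (k + 0 + 1)) (2 * 0 + 1) 0) = chi p 3 * chi p 2 := by
      apply chi_half p (k + 0 + 1) _ _ hk (by omega)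
      rw [bb, if_pos (Nat.zero_le _), Nat.choose_zero_right, Nat.mul_zero, Nat.zero_add,
        Nat.sub_zero, Nat.choose_one_right]
      omega
    have hN : chi p (2 * k + 4 * 0 + 3).factorial = 1 := by
      rw [show 2 * k + 4 * 0 + 3 = 2 * (k + 0 + 1) + 1 by ring, Nat.factorial_succ, chi_mul,
        chi_two_mul_factorial p _ hk (by omega),
        chi_half p (k + 0 + 1) (2 * (k + 0 + 1) + 1) 1 hk (by omega) (by omega)]
      have h3 : chi p 1 = 1 := by simp [chi]
      rw [h3, one_mul, hc2]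
    have h3 : legendreSym 3 p = chi p 3 := by
      rw [chi, legendreSym.quadratic_reciprocity_one_mod_four hp (by norm_num), Nat.cast_ofNat]
    have h4 : chi p 2 ^ (k + 0 + 1) * chi p 2 = 1 := by
      have h5 := chi_two p (k + 0 + 1) hk
      nth_rw 2 [h5]
      rw [h5, ← pow_mul, ← pow_add]
      apply Even.neg_one_pow
      have : (k + 0 + 1) * (k + 0 + 1) + (k + 0 + 1) = (k + 0 + 1) * (k + 0 + 1 + 1) := by ring
      rw [this]
      exact Nat.even_mul_succ_self _
    rw [h2, hN, one_pow, prod_range_one, prod_range_one, hb, h3]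
    have h6 : chi p (2 * 0 + 1) = 1 := by simp [chi]
    rw [h6]
    calc _ = (chi p 2 ^ (k + 0 + 1) * chi p 2) * (chi p 3 * (-1) ^ nonres p) := by ring
      _ = _ := by
        rw [h4, one_mul, mul_comm]
        rfl

end Pool.Agent.Results.MP_6c59e0_nt.LegendreSqrt
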